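import Mathlib

set_option autoImplicit false

namespace Pool.Agent.H.MP_38bc51_pr

open Finset MeasureTheory Filter Topology

abbrev W := ℝ × ℝ × ℝ

noncomputable def cc (v : W) : ℝ := 9/20 * v.2.1 + 7/20 * v.2.2
def ss (v : W) : ℝ := v.1 + v.2.1 + v.2.2

noncomputable def M : W →ₗ[ℝ] W where
  toFun v := (cc v, 0, 0)
  map_add' v w := by simp [cc]; ring
  map_smul' t v := by simp [cc]; ring

noncomputable def Z : W →ₗ[ℝ] W where
  toFun v := (-cc v, v.1, v.2.1 + v.2.2)
  map_add' v w := by simp [cc]; constructor <;> ring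
  map_smul' t v := by simp [cc]; constructor <;> ring

lemma M_apply (v : W) : M v = (cc v, 0, 0) := rfl
lemma Z_apply (v : W) : Z v = (-cc v, v.1, v.2.1 + v.2.2) := rfl

def Good (v : W) : Prop := ∀ n : ℕ, 0 ≤ cc (Z^[n] v) ∧ 0 ≤ ss (Z^[n] v)

def Cone (v : W) : Prop := 0 ≤ v.1 + v.2.1 / 2 + 7 / 10 * v.2.2 ∧
  (2 * v.1 - v.2.1)^2 + 3/2 * (2 * v.1 - v.2.1) * (2 * v.2.1 + v.2.2) + 7/10 * (2 * v.2.1 + v.2.2)^2
    ≤ 3/2 * (v.1 + v.2.1 / 2 + 7 / 10 * v.2.2)^2

lemma cone_Z {v : W} (h : Cone v) : Cone (Z v) := by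
  obtain ⟨x, y, z⟩ := v
  obtain ⟨h1, h2⟩ := h
  simp only [Cone, Z_apply, cc] at *
  constructor
  · linarith
  · nlinarith [sq_nonneg (x + y / 2 + 7 / 10 * z)]

lemma cone_pos {v : W} (h : Cone v) : 0 ≤ cc v ∧ 0 ≤ ss v := by
  obtain ⟨x, y, z⟩ := v
  obtain ⟨h1, h2⟩ := h
  simp only [cc, ss] at *
  set a := x + y / 2 + 7 / 10 * z with ha
  set g := 2 * x - y with hg
  set k := 2 * y + z with hk
  have e1 : 9/20 * y + 7/20 * z = 5/8 * a - (5/16 * g + 7/80 * k) := by rw [ha, hg, hk]; ring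
  have e2 : x + y + z = 5/4 * a - (1/8 * g - 1/8 * k) := by rw [ha, hg, hk]; ring
  rw [e1, e2]
  constructor
  · have : (5/16 * g + 7/80 * k)^2 ≤ (5/8 * a)^2 := by
      nlinarith [sq_nonneg (39 * g + 41 * k), sq_nonneg g, sq_nonneg k, sq_nonneg (g + k)]
    have := (abs_le_of_sq_le_sq' this (by linarith)).2
    linarith
  · have : (1/8 * g - 1/8 * k)^2 ≤ (5/4 * a)^2 := by
      nlinarith [sq_nonneg (g + k), sq_nonneg g, sq_nonneg k, sq_nonneg (4 * g + 3 * k)]
    have := (abs_le_of_sq_le_sq' this (by linarith)).2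
    linarith

lemma good_cone {v : W} (h : Cone v) : Good v := by
  intro n
  apply cone_pos
  induction n with
  | zero => exact h
  | succ n ih => rw [Function.iterate_succ_apply']; exact cone_Z ih

lemma good_of {v : W} (h1 : 0 ≤ cc v) (h2 : 0 ≤ ss v) (h : Good (Z v)) : Good v := by
  intro n
  cases n with
  | zero => exact ⟨h1, h2⟩
  | succ n => rw [Function.iterate_succ_apply]; exact h n

lemma good_Z {v : W} (h : Good v) : Good (Z v) := fun n => by
  have := h (n+1); rwa [Function.iterate_succ_apply] at this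

lemma good_M {v : W} (h : Good v) : Good (M v) := by
  have ht : 0 ≤ cc v := (h 0).1
  rw [M_apply]
  generalize cc v = t at ht
  refine good_of ?_ ?_ (good_of ?_ ?_ (good_of ?_ ?_ (good_of ?_ ?_ (good_of ?_ ?_ (good_cone ⟨?_, ?_⟩)))))
  all_goals simp only [Z_apply, cc, ss]
  all_goals nlinarith [sq_nonneg t]

noncomputable def V (a : ℤ) : ℕ → Finset ℤ → W
  | 0, _ => (0, 0, 1)
  | n+1, S => if a + n ∈ S then M (V a n S) else Z (V a n S)

noncomputable def T (a : ℤ) : ℕ → Finset ℤ → W
  | 0, _ => (0, 0, 1)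
  | n+1, S => if a + n ∈ S then M (T a n S) else (Z + M) (T a n S)

lemma good_V (a : ℤ) (n : ℕ) (S : Finset ℤ) : Good (V a n S) := by
  induction n with
  | zero => exact good_cone ⟨by simp [V]; norm_num, by simp [V]; norm_num⟩
  | succ n ih =>
    rw [V]; split_ifs
    · exact good_M ih
    · exact good_Z ih

lemma V_insert (a b : ℤ) (n : ℕ) (S : Finset ℤ) (h : a + n ≤ b) : V a n (insert b S) = V a n S := by
  induction n with
  | zero => rfl
  | succ n ih =>
    push_cast at h
    have : a + n ≠ b := by omega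
    simp only [V, Finset.mem_insert, this, false_or, ih (by omega)]

lemma win_succ (a : ℤ) (n : ℕ) : Ico a (a + (n+1:ℕ)) = insert (a + n) (Ico a (a + n)) := by
  ext i; simp only [mem_Ico, mem_insert]; push_cast; omega

open Classical in
lemma sumV (a : ℤ) (A : Finset ℤ) (n : ℕ) :
    ∑ S ∈ (Ico a (a + n)).powerset, (if ∀ i ∈ A, a ≤ i → i < a + n → i ∈ S then V a n S else 0)
      = T a n A := by
  induction n with
  | zero =>
    simp only [Nat.cast_zero, add_zero, Ico_self, powerset_empty, sum_singleton, V, T]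
    rw [if_pos]; intro i _ h1 h2; omega
  | succ n ih =>
    rw [win_succ, Finset.sum_powerset_insert (by simp), T, ← ih, map_sum, map_sum]
    have e2 : ∑ S ∈ (Ico a (a + n)).powerset,
        (if ∀ i ∈ A, a ≤ i → i < a + (n+1:ℕ) → i ∈ insert (a + n) S then V a (n+1) (insert (a + n) S) else 0)
        = ∑ S ∈ (Ico a (a + n)).powerset, M (if ∀ i ∈ A, a ≤ i → i < a + n → i ∈ S then V a n S else 0) := by
      refine Finset.sum_congr rfl fun S _ => ?_
      have : (∀ i ∈ A, a ≤ i → i < a + (n+1:ℕ) → i ∈ insert (a + n) S) ↔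
          (∀ i ∈ A, a ≤ i → i < a + n → i ∈ S) := by
        simp only [mem_insert]; push_cast
        constructor
        · intro h i h0 h1 h2
          rcases h i h0 h1 (by omega) with h3 | h3
          · omega
          · exact h3
        · intro h i h0 h1 h2
          by_cases h3 : i = a + n
          · exact Or.inl h3
          · exact Or.inr (h i h0 h1 (by omega))
      simp only [this, V, mem_insert_self, if_true, V_insert a (a+n) n S le_rfl]
      split_ifs <;> simp
    rw [e2]
    by_cases hA : a + n ∈ A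
    · rw [if_pos hA, Finset.sum_eq_zero, zero_add]
      intro S hS
      rw [if_neg]
      intro h
      have := mem_powerset.1 hS (h _ hA (by omega) (by push_cast; omega))
      simp at this
    · rw [if_neg hA, ← Finset.sum_add_distrib]
      refine Finset.sum_congr rfl fun S hS => ?_
      have hS' : a + n ∉ S := fun h => by simpa using mem_powerset.1 hS h
      have : (∀ i ∈ A, a ≤ i → i < a + (n+1:ℕ) → i ∈ S) ↔ (∀ i ∈ A, a ≤ i → i < a + n → i ∈ S) := by
        push_cast
        constructor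
        · intro h i h0 h1 h2; exact h i h0 h1 (by omega)
        · intro h i h0 h1 h2
          have : i ≠ a + n := fun e => hA (e ▸ h0)
          exact h i h0 h1 (by omega)
      simp only [this, V, hS', if_false, LinearMap.add_apply]
      split_ifs <;> simp

noncomputable def gg (A : Finset ℤ) (i : ℤ) : ℝ :=
  if i - 1 ∈ A then 0 else if i - 2 ∈ A then 9/20 else 7/20

noncomputable def φ (A : Finset ℤ) : ℝ := ∏ i ∈ A, gg A i

lemma T_eq (a : ℤ) (A : Finset ℤ) (hA : ∀ i ∈ A, a ≤ i) (n : ℕ) :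
    T a n A = (∏ i ∈ A.filter (· < a + n), gg A i) •
      (if a + n - 1 ∈ A then (1, 0, 0) else if a + n - 2 ∈ A then (0, 1, 0) else ((0, 0, 1) : W)) := by
  induction n with
  | zero =>
    have h1 : a + (0:ℕ) - 1 ∉ A := fun h => by have := hA _ h; push_cast at this; omega
    have h2 : a + (0:ℕ) - 2 ∉ A := fun h => by have := hA _ h; push_cast at this; omega
    rw [if_neg h1, if_neg h2, Finset.filter_eq_empty_iff.2, T]
    · simp
    · intro i hi; have := hA i hi; push_cast; omega
  | succ n ih =>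
    rw [T, ih]
    have e1 : a + (n+1:ℕ) - 1 = a + n := by push_cast; ring
    have e2 : a + (n+1:ℕ) - 2 = a + n - 1 := by push_cast; ring
    rw [e1, e2]
    by_cases h : a + n ∈ A
    · have : A.filter (· < a + (n+1:ℕ)) = insert (a + n) (A.filter (· < a + n)) := by
        ext i; simp only [mem_filter, mem_insert]; push_cast
        constructor
        · rintro ⟨h1, h2⟩
          by_cases h3 : i = a + n
          · exact Or.inl h3
          · exact Or.inr ⟨h1, by omega⟩
        · rintro (h1 | ⟨h1, h2⟩)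
          · exact ⟨h1 ▸ h, by omega⟩
          · exact ⟨h1, by omega⟩
      rw [this, Finset.prod_insert (by simp), if_pos h, if_pos h, map_smul, gg]
      split_ifs <;> simp [M_apply, cc, mul_comm]
    · have : A.filter (· < a + (n+1:ℕ)) = A.filter (· < a + n) := by
        ext i; simp only [mem_filter]; push_cast
        constructor
        · rintro ⟨h1, h2⟩
          have : i ≠ a + n := fun e => h (e ▸ h1)
          exact ⟨h1, by omega⟩
        · rintro ⟨h1, h2⟩; exact ⟨h1, by omega⟩
      rw [this, if_neg h, if_neg h, map_smul]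
      split_ifs <;> simp [M_apply, Z_apply, cc]

def E (A : Finset ℤ) : Set (ℤ → Bool) := {x | ∀ i ∈ A, x i = true}

lemma E_clopen (A : Finset ℤ) : IsClopen (E A) := by
  have : E A = ⋂ i ∈ A, (fun x : ℤ → Bool => x i) ⁻¹' {true} := by ext; simp [E]
  rw [this]
  exact isClopen_biInter_finset fun i _ => (isClopen_discrete _).preimage (continuous_apply i)

lemma E_meas (A : Finset ℤ) : MeasurableSet (E A) := (E_clopen A).isOpen.measurableSet

noncomputable def mu (a : ℤ) (n : ℕ) : Measure (ℤ → Bool) :=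
  ∑ S ∈ (Ico a (a + n)).powerset, ENNReal.ofReal (ss (V a n S)) • Measure.dirac (fun i => decide (i ∈ S))

lemma mu_E (a : ℤ) (n : ℕ) (A : Finset ℤ) (hA : ∀ i ∈ A, a ≤ i ∧ i < a + n) :
    mu a n (E A) = ENNReal.ofReal (φ A) := by
  classical
  have h1 := congrArg ss (sumV a A n)
  rw [T_eq a A (fun i hi => (hA i hi).1), Finset.filter_true_of_mem (fun i hi => (hA i hi).2)] at h1
  have h2 : φ A = ∑ S ∈ (Ico a (a + n)).powerset, (if A ⊆ S then ss (V a n S) else 0) := by
    have e : ∀ v : W, ss v = (LinearMap.fst ℝ ℝ (ℝ × ℝ) + (LinearMap.fst ℝ ℝ ℝ + LinearMap.snd ℝ ℝ ℝ) ∘ₗ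
      LinearMap.snd ℝ ℝ (ℝ × ℝ)) v := fun v => by simp [ss, add_assoc]
    rw [e, map_sum] at h1
    simp only [← e] at h1
    have : ss ((∏ i ∈ A, gg A i) • (if a + n - 1 ∈ A then (1, 0, 0) else if a + n - 2 ∈ A then (0, 1, 0)
      else ((0, 0, 1) : W))) = φ A := by
      split_ifs <;> simp [ss, φ]
    rw [← this, ← h1]
    refine Finset.sum_congr rfl fun S _ => ?_
    have : (∀ i ∈ A, a ≤ i → i < a + n → i ∈ S) ↔ A ⊆ S :=
      ⟨fun h i hi => h i hi (hA i hi).1 (hA i hi).2, fun h i hi _ _ => h hi⟩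
    simp only [this]
    split_ifs <;> simp [ss]
  rw [h2, ENNReal.ofReal_sum_of_nonneg (fun S _ => by
    split_ifs
    · exact (good_V a n S 0).2
    · exact le_rfl), mu, Measure.coe_finset_sum, Finset.sum_apply]
  refine Finset.sum_congr rfl fun S _ => ?_
  rw [Measure.smul_apply, Measure.dirac_apply' _ (E_meas A)]
  by_cases h : A ⊆ S
  · rw [if_pos h, Set.indicator_of_mem (by intro i hi; simpa using h hi)]; simp
  · rw [if_neg h, Set.indicator_of_notMem (fun hh => h fun i hi => by simpa using hh i hi)]; simp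

lemma exists_mu : ∃ μ : Measure (ℤ → Bool), IsProbabilityMeasure μ ∧
    ∀ A, μ (E A) = ENNReal.ofReal (φ A) := by
  have hp : ∀ n : ℕ, IsProbabilityMeasure (mu (-n) (2*n)) := fun n => ⟨by
    have := mu_E (-n) (2*n) ∅ (by simp)
    simpa [E, φ] using this⟩
  let μs : ℕ → ProbabilityMeasure (ℤ → Bool) := fun n => ⟨mu (-n) (2*n), hp n⟩
  obtain ⟨μ, -, hμ⟩ := isCompact_univ.ultrafilter_le_nhds ((hyperfilter ℕ).map μs) (by simp)
  refine ⟨μ, inferInstance, fun A => ?_⟩
  have h1 := ProbabilityMeasure.tendsto_measure_of_null_frontier_of_tendsto'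
    (L := (hyperfilter ℕ : Filter ℕ)) (μs := μs) hμ (E := E A) (by simp [E_clopen A])
  refine tendsto_nhds_unique h1 (tendsto_const_nhds.congr' ?_)
  have hle : (hyperfilter ℕ : Filter ℕ) ≤ atTop := Nat.hyperfilter_le_atTop
  obtain ⟨N, hN⟩ : ∃ N : ℕ, ∀ i ∈ A, |i| < N := by
    refine ⟨A.sup Int.natAbs + 1, fun i hi => ?_⟩
    have := Finset.le_sup (f := Int.natAbs) hi
    rw [Int.abs_eq_natAbs]; omega
  filter_upwards [hle (eventually_ge_atTop N)] with n hn
  refine (mu_E (-n) (2*n) A fun i hi => ?_).symm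
  have := abs_lt.1 (hN i hi)
  have hn' : N ≤ n := hn
  push_cast; omega

end Pool.Agent.H.MP_38bc51_pr
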